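import Pool.Agent.Lib.helper32.Tau

set_option autoImplicit false

namespace Pool.Agent.Results.MP_9c4169_gt.Union

open Filter Topology Set Pool.Agent.Lib.helper32.Tau

theorem up {X : Set ℝ} (h : SG (univ : Set X)) : SG X := by
  intro O h1 h2
  obtain ⟨k, hk⟩ := h (fun n k => Subtype.val ⁻¹' O n k)
    (fun n k => (h1 n k).preimage continuous_subtype_val) fun n x _ => h2 n x x.2
  exact ⟨k, fun x hx => hk ⟨x, hx⟩ trivial⟩

theorem down {X : Set ℝ} (h : SG X) : SG (univ : Set X) := by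
  intro O h1 h2
  choose P h3 h4 using fun n k => isOpen_induced_iff.1 (h1 n k)
  obtain ⟨k, hk⟩ := h P h3 fun n x hx => (h2 n ⟨x, hx⟩ trivial).mono fun k hk => by
    rw [← h4] at hk; exact hk
  exact ⟨k, fun x _ => (hk x x.2).mono fun n hn => by rw [← h4]; exact hn⟩

theorem result (X Y : Set ℝ) (hX : S1 (Z := X) Ga Ta) (hY : S1 (Z := Y) Ga Ta) :
    S1 (Z := (X ∪ Y : Set ℝ)) Ga Ta := by
  have h1 : (⋃ i : ℕ, if i = 0 then X else Y) = X ∪ Y := by
    refine subset_antisymm (iUnion_subset fun i => ?_) (union_subset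
      (subset_iUnion_of_subset 0 (by simp)) (subset_iUnion_of_subset 1 (by simp)))
    split_ifs
    exacts [subset_union_left, subset_union_right]
  have h2 : SG (X ∪ Y) := h1 ▸ sg_union fun i => by
    split_ifs
    exacts [up (sg_of hX), up (sg_of hY)]
  intro 𝓤 h3
  obtain ⟨U, h4, h5⟩ := sg_s1 (down h2) 𝓤 h3
  exact ⟨U, h4, ga_ta h5⟩

end Pool.Agent.Results.MP_9c4169_gt.Union
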